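import Mathlib
import Pool.Agent.Helper702.RpoDefs
import Pool.Agent.Helper702.RpoFin

set_option autoImplicit false

namespace Pool.Agent.Results.MP_18cdfa_lc.UndecidableRPO

open Pool.Agent.Helper702.Rpo

/-- A signature with one constant `0`, unary symbols `1`, `2` and binary symbols `3`, `4`. -/
def exSig : Sig := ⟨5, ![0, 1, 1, 2, 2]⟩

/-- The precedence `4 > 3 > 1, 2 > 0`, in which only the symbols `1` and `2` are incomparable. -/
def exPrec (f g : Fin exSig.n) : Prop := g.val < f.val ∧ ¬ (f.val = 2 ∧ g.val = 1)

/-- **Undecidability of the existential theory of the recursive path ordering for partial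
precedences.** First part: let `S` be any finite signature with exactly one constant `z`, and let
`prec` be any strict partial order on its symbols such that there are two different unary symbols
`a`, `c` below which there is no symbol except possibly `z` (so `a` and `c` are incomparable);
nothing is assumed about the other symbols. Then for every status function the existential fragment of the
theory of the term algebra with the recursive path ordering is undecidable.
Second part (negated form of the question): there are a finite signature with a constant and with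
binary symbols, and a precedence with exactly one pair of incomparable symbols,
such that for every status function the existential fragment is undecidable. -/
theorem result :
    (∀ (S : Sig) (prec : Fin S.n → Fin S.n → Prop),
      (∀ f, ¬ prec f f) → (∀ f g h, prec f g → prec g h → prec f h) →
      ∀ z a c : Fin S.n, S.ar z = 0 → (∀ f, S.ar f = 0 → f = z) → S.ar a = 1 → S.ar c = 1 → a ≠ c →
      (∀ f, prec a f → f = z) → (∀ f, prec c f → f = z) →
      ∀ st : Fin S.n → Status, ¬ ExDecidable S prec st) ∧
    (∃ (S : Sig) (prec : Fin S.n → Fin S.n → Prop),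
      (∀ f, ¬ prec f f) ∧ (∀ f g h, prec f g → prec g h → prec f h) ∧
      (∃ f, S.ar f = 0) ∧ (∃ f g, f ≠ g ∧ S.ar f = 2 ∧ S.ar g = 2) ∧
      (∃ a c, a ≠ c ∧ ¬ prec a c ∧ ¬ prec c a ∧
        ∀ f g, f ≠ g → (prec f g ∨ prec g f) ∨ (f = a ∧ g = c) ∨ (f = c ∧ g = a)) ∧
      ∀ st : Fin S.n → Status, ¬ ExDecidable S prec st) := by
  have main : ∀ (S : Sig) (prec : Fin S.n → Fin S.n → Prop),
      (∀ f, ¬ prec f f) → (∀ f g h, prec f g → prec g h → prec f h) →
      ∀ z a c : Fin S.n, S.ar z = 0 → (∀ f, S.ar f = 0 → f = z) → S.ar a = 1 → S.ar c = 1 → a ≠ c →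
      (∀ f, prec a f → f = z) → (∀ f, prec c f → f = z) →
      ∀ st : Fin S.n → Status, ¬ ExDecidable S prec st := by
    intro S prec hirr _ z a c hz huniq ha hc hac hma hmc st
    exact Two.undecidable st
      { z := z, a := a, c := c, hz := hz, huniq := huniq, ha := ha, hc := hc, hac := hac, hirr := hirr
        hma := fun f hf => by rw [hma f hf]; exact hz
        hmc := fun f hf => by rw [hmc f hf]; exact hz }
  refine ⟨main, exSig, exPrec, ?_, ?_, ⟨(0 : Fin 5), rfl⟩, ⟨(3 : Fin 5), (4 : Fin 5), ?_, rfl, rfl⟩,
    ⟨(1 : Fin 5), (2 : Fin 5), ?_, ?_, ?_, ?_⟩, ?_⟩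
  · rintro f ⟨h, -⟩
    exact lt_irrefl _ h
  · rintro f g h ⟨h1, h2⟩ ⟨h3, h4⟩
    refine ⟨h3.trans h1, fun h5 => ?_⟩
    omega
  · decide
  · decide
  · rintro ⟨h, -⟩
    exact absurd h (by decide)
  · rintro ⟨-, h⟩
    exact h (by decide)
  · intro f g hfg
    have h1 : f.val ≠ g.val := fun h => hfg (Fin.ext h)
    have hf : f.val < 5 := f.isLt
    have hg : g.val < 5 := g.isLt
    by_cases h2 : f.val = 1 ∧ g.val = 2
    · right; left
      exact ⟨Fin.ext h2.1, Fin.ext h2.2⟩
    · by_cases h3 : f.val = 2 ∧ g.val = 1
      · right; right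
        exact ⟨Fin.ext h3.1, Fin.ext h3.2⟩
      · left
        unfold exPrec
        omega
  · apply main exSig exPrec _ _ (0 : Fin 5) (1 : Fin 5) (2 : Fin 5) rfl _ rfl rfl (by decide) _ _
    · rintro f ⟨h, -⟩
      exact lt_irrefl _ h
    · rintro f g h ⟨h1, h2⟩ ⟨h3, h4⟩
      refine ⟨h3.trans h1, fun h5 => ?_⟩
      omega
    · intro f hf
      have : ∀ f : Fin 5, (![0, 1, 1, 2, 2] : Fin 5 → ℕ) f = 0 → f = 0 := by decide
      exact this f hf
    · rintro f ⟨h, -⟩
      have h' : f.val < 1 := h
      have h0 : f.val = 0 := by omega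
      exact Fin.ext h0
    · rintro f ⟨h, h2⟩
      have h' : f.val < 2 := h
      have h3 : ¬ f.val = 1 := fun h4 => h2 ⟨rfl, h4⟩
      have h0 : f.val = 0 := by omega
      exact Fin.ext h0

end Pool.Agent.Results.MP_18cdfa_lc.UndecidableRPO
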